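import Pool.Agent.U664.SQ.Good
import Pool.Agent.E8helper14.PA.Count

/-!
# Exceptional coefficient vectors at every scale
-/

set_option autoImplicit false

namespace Pool.Agent.U664.SQ

open Complex Finset Polynomial Pool.Agent.R347.LW Pool.Agent.TH456.TM

/-- the integer polynomial with given coefficients -/
noncomputable def pol {D : ℕ} (k : Fin (D + 1) → ℤ) : ℤ[X] := ∑ j, C (k j) * X ^ (j : ℕ)

theorem natDegree_pol {D : ℕ} (k : Fin (D + 1) → ℤ) : (pol k).natDegree ≤ D := by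
  refine natDegree_sum_le_of_forall_le _ _ fun j _ => ?_
  exact (natDegree_C_mul_X_pow_le _ _).trans (by omega)

theorem aeval_pol {D : ℕ} (k : Fin (D + 1) → ℤ) (t : ℂ) :
    aeval t (pol k) = ∑ j, (k j : ℂ) * t ^ (j : ℕ) := by
  rw [pol, map_sum]
  exact sum_congr rfl fun j _ => by
    rw [map_mul, map_pow, aeval_X, aeval_C, algebraMap_int_eq, eq_intCast]

theorem box_bad {t : ℂ} (ht : MeasT t) {ξ : ℂ} (hξ : ξ ≠ 0) (d D H : ℕ) :
    ∃ C₀ N₀ : ℕ, ∀ N ≥ N₀, ∀ K ≥ C₀, ∃ U : Submodule ℚ (Fin (D + 1) → ℚ),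
      2 * Module.finrank ℚ U ≤ D + 4 ∧
      (∀ k : Fin (D + 1) → ℤ, (∀ j, |k j| ≤ H) →
        ¬ Good d K N (exp (ξ * ∑ j, (k j : ℂ) * t ^ (j : ℕ))) → (fun j => (k j : ℚ)) ∈ U) ∧
      {k : Fin (D + 1) → ℤ | (∀ j, |k j| ≤ H) ∧
        ¬ Good d K N (exp (ξ * ∑ j, (k j : ℂ) * t ^ (j : ℕ)))}.ncard ≤
          (2 * H + 1) ^ ((D + 4) / 2) := by
  classical
  obtain ⟨B, hB⟩ : ∃ B : Finset (Fin (D + 1) → ℤ), B = Fintype.piFinset fun _ => Icc (-(H : ℤ)) H :=
    ⟨_, rfl⟩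
  have hBm : ∀ k, k ∈ B ↔ ∀ j, |k j| ≤ H := fun k => by
    rw [hB, Fintype.mem_piFinset]
    exact forall_congr' fun j => by rw [mem_Icc, abs_le]
  obtain ⟨C₀, N₀, -, h⟩ := span_bad ht hξ d D (B.image pol) (fun P hP => by
    obtain ⟨k, -, rfl⟩ := mem_image.1 hP
    exact natDegree_pol k)
  refine ⟨C₀, N₀, fun N hN K hK => ?_⟩
  obtain ⟨S, hS⟩ : ∃ S : Set (Fin (D + 1) → ℤ), S = {k : Fin (D + 1) → ℤ | (∀ j, |k j| ≤ H) ∧
        ¬ Good d K N (exp (ξ * ∑ j, (k j : ℂ) * t ^ (j : ℕ)))} := ⟨_, rfl⟩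
  obtain ⟨L, hL⟩ : ∃ L : (Fin (D + 1) → ℚ) →ₗ[ℚ] ℚ[X],
      L = Fintype.linearCombination ℚ (fun j : Fin (D + 1) => (X : ℚ[X]) ^ (j : ℕ)) := ⟨_, rfl⟩
  have hLi : Function.Injective L := by
    have h1 : LinearIndependent ℚ fun j : Fin (D + 1) => (X : ℚ[X]) ^ (j : ℕ) := by
      have h2 := (Polynomial.basisMonomials ℚ).linearIndependent.comp
        (fun j : Fin (D + 1) => (j : ℕ)) Fin.val_injective
      have e : (fun j : Fin (D + 1) => (X : ℚ[X]) ^ (j : ℕ)) =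
          (Polynomial.basisMonomials ℚ) ∘ fun j : Fin (D + 1) => (j : ℕ) := by
        funext i
        simp [Polynomial.X_pow_eq_monomial]
      rw [e]
      exact h2
    rw [hL]
    refine LinearMap.ker_eq_bot.1 (LinearMap.ker_eq_bot'.2 fun m hm => ?_)
    funext i
    exact Fintype.linearIndependent_iff.1 h1 m (by
      rw [← hm, Fintype.linearCombination_apply]) i
  obtain ⟨U, hU⟩ : ∃ U : Submodule ℚ (Fin (D + 1) → ℚ),
      U = Submodule.span ℚ ((fun k : Fin (D + 1) → ℤ => fun j => (k j : ℚ)) '' S) := ⟨_, rfl⟩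
  have hfin : Module.finrank ℚ U ≤ (D + 4) / 2 := by
    refine le_trans ?_ (h N hN K hK)
    rw [LinearEquiv.finrank_eq (Submodule.equivMapOfInjective L hLi U)]
    have hfd : FiniteDimensional ℚ (Submodule.span ℚ {p : ℚ[X] | ∃ P ∈ B.image pol,
        ¬ Good d K N (exp (ξ * aeval t P)) ∧ p = P.map (Int.castRingHom ℚ)}) := by
      refine FiniteDimensional.span_of_finite ℚ
        (((B.image pol).image (Polynomial.map (Int.castRingHom ℚ))).finite_toSet.subset ?_)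
      rintro _ ⟨P, hP, _, rfl⟩
      exact mem_coe.2 (mem_image_of_mem _ hP)
    refine Submodule.finrank_mono ?_
    rw [hU, Submodule.map_span]
    refine Submodule.span_mono ?_
    rintro _ ⟨_, ⟨k, hk, rfl⟩, rfl⟩
    rw [hS] at hk
    refine ⟨pol k, mem_image_of_mem _ ((hBm k).2 hk.1), ?_, ?_⟩
    · rw [aeval_pol]
      exact hk.2
    · rw [hL, Fintype.linearCombination_apply, pol, Polynomial.map_sum]
      refine sum_congr rfl fun j _ => ?_
      rw [Polynomial.map_mul, Polynomial.map_pow, map_X, map_C, eq_intCast, smul_eq_C_mul]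
  refine ⟨U, by omega, fun k hk hb => ?_, ?_⟩
  · rw [hU]
    refine Submodule.subset_span ⟨k, ?_, rfl⟩
    rw [hS]
    exact ⟨hk, hb⟩
  · rw [← hS]
    have hSfin : S.Finite := B.finite_toSet.subset fun k hk => by
      rw [hS] at hk
      exact (hBm k).2 hk.1
    rw [Set.ncard_eq_toFinset_card S hSfin]
    refine (Pool.Agent.E8helper14.PA.card_subspace U H hSfin.toFinset fun k hk => ?_).trans ?_
    · rw [Set.Finite.mem_toFinset] at hk
      have hk2 := hk
      rw [hS] at hk2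
      refine ⟨fun j => ?_, ?_⟩
      · rw [mem_Icc, ← abs_le]
        exact hk2.1 j
      · rw [hU]
        exact Submodule.subset_span ⟨k, hk, rfl⟩
    · exact Nat.pow_le_pow_right (by omega) hfin

end Pool.Agent.U664.SQ
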