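import Pool.Agent.U664.SQ.Tuple

/-!
# Transcendence measures at every scale
-/

set_option autoImplicit false

namespace Pool.Agent.U664.SQ

open Complex Finset Polynomial Pool.Agent.R347.LW Pool.Agent.TH456.TM

/-- `|f(x)| > exp (- N ^ C)` for all nonzero integer polynomials `f` of degree at most `d` with
coefficients of absolute value at most `N` -/
def Good (d C N : ℕ) (x : ℂ) : Prop :=
  ∀ f : ℤ[X], f ≠ 0 → f.natDegree ≤ d → (∀ n, |f.coeff n| ≤ N) →
    Real.exp (-((N : ℝ) ^ C)) < ‖aeval x f‖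

theorem Good.mono {d C C' N : ℕ} {x : ℂ} (h : Good d C N x) (hC : C ≤ C') (hN : 1 ≤ N) :
    Good d C' N x := fun f hf hd hc => by
  refine lt_of_le_of_lt (Real.exp_le_exp.2 (neg_le_neg ?_)) (h f hf hd hc)
  exact pow_le_pow_right₀ (by exact_mod_cast hN) hC

theorem good_of_not_near {d C₀ N : ℕ} {x : ℂ} (hN : d + 1 ≤ N) (h : ¬ Near d C₀ N x) :
    Good d (C₀ + 1) N x := by
  intro f hf hd hc
  by_contra hcon
  push Not at hcon
  have hN1 : (1 : ℝ) ≤ N := by exact_mod_cast (by omega : 1 ≤ N)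
  have hNC : 1 ≤ (N : ℝ) ^ (C₀ + 1) := one_le_pow₀ hN1
  have hinj : Function.Injective (algebraMap ℤ ℂ) := (algebraMap ℤ ℂ).injective_int
  rcases Nat.eq_zero_or_pos f.natDegree with h0 | h1
  · rw [eq_C_of_natDegree_eq_zero h0, aeval_C] at hcon
    have h2 : f.coeff 0 ≠ 0 := fun h2 => hf (by rw [eq_C_of_natDegree_eq_zero h0, h2, C_0])
    have h3 : (1 : ℝ) ≤ ‖(algebraMap ℤ ℂ) (f.coeff 0)‖ := by
      rw [algebraMap_int_eq, eq_intCast, Complex.norm_intCast]
      exact_mod_cast Int.one_le_abs h2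
    have h4 : Real.exp (-((N : ℝ) ^ (C₀ + 1))) < 1 := by
      rw [Real.exp_lt_one_iff]
      linarith
    linarith
  · obtain ⟨r, hr, hrx⟩ := near_root (f.map (algebraMap ℤ ℂ)) f.natDegree
      (natDegree_map_eq_of_injective hinj f) h1 x
    have hfr : aeval r f = 0 := by
      rwa [eval_map_algebraMap] at hr
    have hlc : (1 : ℝ) ≤ ‖(f.map (algebraMap ℤ ℂ)).leadingCoeff‖ := by
      rw [leadingCoeff_map_of_injective hinj, algebraMap_int_eq, eq_intCast, Complex.norm_intCast]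
      exact_mod_cast Int.one_le_abs (leadingCoeff_ne_zero.2 hf)
    apply h
    refine ⟨r, ⟨f, hf, hd, hc, hfr⟩, ?_⟩
    by_contra hlt
    push Not at hlt
    have e1 : Real.exp (-((N : ℝ) ^ (C₀ + 1))) < Real.exp (-((N : ℝ) ^ C₀)) ^ f.natDegree := by
      rw [← Real.exp_nat_mul]
      apply Real.exp_lt_exp.2
      have h5 : (f.natDegree : ℝ) + 1 ≤ N := by exact_mod_cast (by omega : f.natDegree + 1 ≤ N)
      have h6 : 0 < (N : ℝ) ^ C₀ := by positivity
      rw [pow_succ]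
      nlinarith
    have e2 : Real.exp (-((N : ℝ) ^ C₀)) ^ f.natDegree ≤ ‖x - r‖ ^ f.natDegree :=
      pow_le_pow_left₀ (Real.exp_pos _).le hlt.le _
    have e3 : ‖aeval x f‖ = ‖(f.map (algebraMap ℤ ℂ)).eval x‖ := by rw [eval_map_algebraMap]
    have e4 : ‖x - r‖ ^ f.natDegree ≤ ‖aeval x f‖ := by
      rw [e3]
      refine le_trans ?_ hrx
      exact le_mul_of_one_le_left (by positivity) hlc
    linarith

/-- uniformity on finite sets of conditions -/
theorem uniform {T : Type} [Fintype T] (p : T → ℕ → ℕ → Prop)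
    (h : ∀ i, ∃ C₀ N₀ : ℕ, 1 ≤ N₀ ∧ ∀ N ≥ N₀, ∀ K ≥ C₀, p i K N) :
    ∃ C₀ N₀ : ℕ, 1 ≤ N₀ ∧ ∀ N ≥ N₀, ∀ K ≥ C₀, ∀ i, p i K N := by
  choose C₀ N₀ hN₀ h using h
  refine ⟨univ.sup C₀, 1 + univ.sup N₀, by omega, fun N hN K hK i => h i N ?_ K ?_⟩
  · exact (le_sup (f := N₀) (mem_univ i)).trans (by omega)
  · exact (le_sup (f := C₀) (mem_univ i)).trans hK

/-- **The span of the bad polynomials.** -/
theorem span_bad {t : ℂ} (ht : MeasT t) {ξ : ℂ} (hξ : ξ ≠ 0) (d D : ℕ) (F : Finset ℤ[X])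
    (hF : ∀ P ∈ F, P.natDegree ≤ D) :
    ∃ C₀ N₀ : ℕ, 1 ≤ N₀ ∧ ∀ N ≥ N₀, ∀ K ≥ C₀,
      Module.finrank ℚ (Submodule.span ℚ {p : ℚ[X] | ∃ P ∈ F, ¬ Good d K N (exp (ξ * aeval t P)) ∧
        p = P.map (Int.castRingHom ℚ)}) ≤ (D + 4) / 2 := by
  classical
  obtain ⟨r, hr⟩ : ∃ r, r = (D + 4) / 2 + 1 := ⟨_, rfl⟩
  have hr2 : D + 5 ≤ 2 * r := by omega
  obtain ⟨C₀, N₀, hN₀, h⟩ := uniform (T := Fin r → F)
    (fun P K N => LinearIndependent ℤ (fun j => (P j : ℤ[X])) →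
      ∃ j, ¬ Near d K N (exp (ξ * aeval t (P j : ℤ[X]))))
    (fun P => by
      by_cases hP : LinearIndependent ℤ (fun j => (P j : ℤ[X]))
      · obtain ⟨C₀, N₀, hN₀, h⟩ := tuple ht hξ d hr2 (fun j => (P j : ℤ[X]))
          (fun j => hF _ (P j).2) hP
        exact ⟨C₀, N₀, hN₀, fun N hN K hK _ => h N hN K hK⟩
      · exact ⟨0, 1, le_rfl, fun _ _ _ _ h => absurd h hP⟩)
  refine ⟨C₀ + 1, max N₀ (d + 1), hN₀.trans (le_max_left _ _), fun N hN K hK => ?_⟩
  by_contra hlt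
  push Not at hlt
  obtain ⟨S, hS⟩ : ∃ S : Set ℚ[X], S = {p : ℚ[X] | ∃ P ∈ F, ¬ Good d K N (exp (ξ * aeval t P)) ∧
        p = P.map (Int.castRingHom ℚ)} := ⟨_, rfl⟩
  rw [← hS] at hlt
  obtain ⟨b, hbS, hbspan, hbi⟩ := exists_linearIndependent ℚ S
  have hSfin : S.Finite := by
    refine (F.image (Polynomial.map (Int.castRingHom ℚ))).finite_toSet.subset ?_
    rw [hS]
    rintro _ ⟨P, hP, _, rfl⟩
    simp only [coe_image]
    exact ⟨P, hP, rfl⟩
  have hbfin : b.Finite := hSfin.subset hbS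
  have := hbfin.fintype
  have hcard : r ≤ Fintype.card b := by
    have h1 : Module.finrank ℚ (Submodule.span ℚ b) = Fintype.card b := by
      have h2 := finrank_span_eq_card hbi
      rwa [Subtype.range_coe] at h2
    rw [← h1, hbspan, hr]
    exact hlt
  obtain ⟨g⟩ : Nonempty (Fin r ↪ b) := by
    rw [Function.Embedding.nonempty_iff_card_le, Fintype.card_fin]
    exact hcard
  have hgS : ∀ j, ∃ P ∈ F, ¬ Good d K N (exp (ξ * aeval t P)) ∧
      ((g j : b) : ℚ[X]) = P.map (Int.castRingHom ℚ) := by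
    intro j
    have h1 := hbS (g j).2
    rw [hS] at h1
    exact h1
  choose P hPF hPG hPg using hgS
  have hind : LinearIndependent ℤ P := by
    have h1 : LinearIndependent ℚ fun j => (P j).map (Int.castRingHom ℚ) := by
      have h2 := hbi.comp g g.injective
      have e : (fun j => (P j).map (Int.castRingHom ℚ)) = (Subtype.val : b → ℚ[X]) ∘ g := by
        funext j
        exact (hPg j).symm
      rw [e]
      exact h2
    rw [← LinearIndependent.iff_fractionRing ℤ ℚ] at h1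
    have h2 : LinearIndependent ℤ ((Polynomial.mapAlgHom (Algebra.ofId ℤ ℚ)).toLinearMap ∘ P) := h1
    exact h2.of_comp _
  have hNN : N₀ ≤ N := (le_max_left _ _).trans hN
  obtain ⟨j, hj⟩ := h N hNN C₀ le_rfl (fun j => ⟨P j, hPF j⟩) hind
  exact hPG j ((good_of_not_near ((le_max_right _ _).trans hN) hj).mono hK (hN₀.trans hNN))

/-- **Powers: pairs.** -/
theorem pairs_bad {t : ℂ} (ht : MeasT t) {ξ : ℂ} (hξ : ξ ≠ 0) (d M : ℕ) :
    ∃ C₀ N₀ : ℕ, 1 ≤ N₀ ∧ ∀ N ≥ N₀, ∀ K ≥ C₀,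
      (∀ δ : ℕ, 0 < δ → {k : ℕ | k + δ < M ∧ ¬ Good d K N (exp (ξ * t ^ k)) ∧
        ¬ Good d K N (exp (ξ * t ^ (k + δ)))}.encard ≤ 2) ∧
      (({k : ℕ | k < M ∧ ¬ Good d K N (exp (ξ * t ^ k))}).ncard : ℝ) ≤ 2 * √M + 1 := by
  classical
  obtain ⟨C₀, N₀, hN₀, h⟩ := uniform (T := (Fin 3 → Fin M) × Fin M)
    (fun x K N => Function.Injective x.1 → 0 < (x.2 : ℕ) →
      ∃ i, ¬ (Near d K N (exp (ξ * t ^ ((x.1 i : ℕ)))) ∧
        Near d K N (exp (ξ * t ^ ((x.1 i : ℕ) + (x.2 : ℕ))))))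
    (fun x => by
      by_cases hx : Function.Injective x.1 ∧ 0 < (x.2 : ℕ)
      · obtain ⟨C₀, N₀, hN₀, h⟩ := triple ht hξ d (fun i => X ^ ((x.1 i : ℕ)))
          (fun i => X ^ ((x.1 i : ℕ) + (x.2 : ℕ))) (fun b hb => by
            have h1 : LinearIndependent ℤ fun i : Fin 3 => (X : ℤ[X]) ^ ((x.1 i : ℕ)) := by
              have h2 := (Polynomial.basisMonomials ℤ).linearIndependent.comp
                (fun i : Fin 3 => (x.1 i : ℕ)) (fun i j hij => hx.1 (Fin.ext hij))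
              have e : (fun i : Fin 3 => (X : ℤ[X]) ^ ((x.1 i : ℕ))) =
                  (Polynomial.basisMonomials ℤ) ∘ fun i : Fin 3 => (x.1 i : ℕ) := by
                funext i
                simp [Polynomial.X_pow_eq_monomial]
              rw [e]
              exact h2
            funext i
            exact Fintype.linearIndependent_iff.1 h1 b (by
              rw [← hb]
              exact sum_congr rfl fun j _ => by rw [smul_eq_C_mul]) i)
          (fun i j => by ring)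
          (fun a b hab => by
            have h1 := congrArg (fun G : ℤ[X] => G.coeff ((x.1 0 : ℕ) + (x.2 : ℕ))) hab
            simp only [coeff_C_mul, coeff_X_pow, if_true, mul_one] at h1
            rw [if_neg (by omega), mul_zero] at h1
            exact h1.symm)
        refine ⟨C₀, N₀, hN₀, fun N hN K hK _ _ => ?_⟩
        obtain ⟨i, hi⟩ := h N hN K hK
        refine ⟨i, ?_⟩
        simpa only [map_pow, aeval_X] using hi
      · exact ⟨0, 1, le_rfl, fun _ _ _ _ h1 h2 => absurd ⟨h1, h2⟩ hx⟩)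
  refine ⟨C₀ + 1, max N₀ (d + 1), hN₀.trans (le_max_left _ _), fun N hN K hK => ?_⟩
  have hNN : N₀ ≤ N := (le_max_left _ _).trans hN
  have hnear : ∀ x, ¬ Good d K N x → Near d C₀ N x := by
    intro x hx
    by_contra hn
    exact hx ((good_of_not_near ((le_max_right _ _).trans hN) hn).mono hK (hN₀.trans hNN))
  have hmain : ∀ δ : ℕ, 0 < δ → {k : ℕ | k + δ < M ∧ ¬ Good d K N (exp (ξ * t ^ k)) ∧
        ¬ Good d K N (exp (ξ * t ^ (k + δ)))}.encard ≤ 2 := by
    intro δ hδ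
    refine Pool.Agent.U492.GP.encard_le_two fun f hf => ?_
    by_contra hcon
    push Not at hcon
    have hfM : ∀ i, f i < M := fun i => by
      have := (hcon i).1
      omega
    have hδM : δ < M := by
      have := (hcon 0).1
      omega
    obtain ⟨i, hi⟩ := h N hNN C₀ le_rfl (fun i => ⟨f i, hfM i⟩, ⟨δ, hδM⟩)
      (fun i j hij => hf (congrArg Fin.val hij)) hδ
    exact hi ⟨hnear _ (hcon i).2.1, hnear _ (hcon i).2.2⟩
  refine ⟨hmain, ?_⟩
  have h1 := Pool.Agent.U492.GP.card_le_sqrt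
    (S := {k : ℕ | k < M ∧ ¬ Good d K N (exp (ξ * t ^ k))}) (fun δ hδ => by
      refine (Set.encard_le_encard ?_).trans (hmain δ hδ)
      rintro k ⟨⟨_, hk2⟩, hk3, hk4⟩
      exact ⟨hk3, hk2, hk4⟩) M
  refine le_trans (le_of_eq ?_) h1
  congr 2
  ext k
  simp only [Set.mem_setOf_eq, Set.mem_inter_iff, Set.mem_Iio]
  tauto

end Pool.Agent.U664.SQ
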