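import Mathlib

/-!
# Many linearly independent polynomials of bounded degree have common multiples by `X`
-/

set_option autoImplicit false

namespace Pool.Agent.U664.SQ

open Finset Polynomial

theorem indep_rat {r : ℕ} {P : Fin r → ℤ[X]} (hP : LinearIndependent ℤ P) :
    LinearIndependent ℚ fun j => (P j).map (Int.castRingHom ℚ) := by
  rw [← LinearIndependent.iff_fractionRing ℤ ℚ]
  have h1 : LinearIndependent ℤ ((Polynomial.mapAlgHom (Algebra.ofId ℤ ℚ)).toLinearMap ∘ P) := by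
    refine hP.map' _ ?_
    rw [LinearMap.ker_eq_bot]
    exact Polynomial.map_injective _ Int.cast_injective
  exact h1

/-- If `2 r ≥ D + 5`, then `r` linearly independent polynomials of degree at most `D` span a space
which contains three linearly independent polynomials together with their products with `X`. -/
theorem exists_relations {r D : ℕ} (hr : D + 5 ≤ 2 * r) (P : Fin r → ℤ[X])
    (hd : ∀ j, (P j).natDegree ≤ D) (hP : LinearIndependent ℤ P) :
    ∃ A B : Fin 3 → Fin r → ℤ, (∀ i, X * ∑ j, C (A i j) * P j = ∑ j, C (B i j) * P j) ∧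
      ∀ b : Fin 3 → ℤ, ∑ i, C (b i) * (∑ j, C (A i j) * P j) = 0 → b = 0 := by
  classical
  obtain ⟨p, hp⟩ : ∃ p : Fin r → ℚ[X], p = fun j => (P j).map (Int.castRingHom ℚ) := ⟨_, rfl⟩
  have hpi : LinearIndependent ℚ p := hp ▸ indep_rat hP
  obtain ⟨S, hS⟩ : ∃ S : (Fin r → ℚ) →ₗ[ℚ] ℚ[X], S = Fintype.linearCombination ℚ p := ⟨_, rfl⟩
  have hSa : ∀ a, S a = ∑ j, a j • p j := fun a => by rw [hS, Fintype.linearCombination_apply]
  obtain ⟨Φ, hΦ⟩ : ∃ Φ : ((Fin r → ℚ) × (Fin r → ℚ)) →ₗ[ℚ] ℚ[X],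
      Φ = S ∘ₗ LinearMap.snd ℚ _ _ - (LinearMap.mulLeft ℚ X) ∘ₗ S ∘ₗ LinearMap.fst ℚ _ _ := ⟨_, rfl⟩
  have hΦa : ∀ x, Φ x = S x.2 - X * S x.1 := fun x => by rw [hΦ]; rfl
  have hpd : ∀ j, (p j).degree ≤ D := by
    intro j
    rw [hp]
    exact degree_map_le.trans (degree_le_of_natDegree_le (hd j))
  have hSd : ∀ a, (S a).degree ≤ D := by
    intro a
    rw [hSa]
    refine (degree_sum_le _ _).trans (Finset.sup_le fun j _ => ?_)
    exact (degree_smul_le _ _).trans (hpd j)
  have hrange : LinearMap.range Φ ≤ degreeLT ℚ (D + 2) := by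
    rintro _ ⟨x, rfl⟩
    rw [mem_degreeLT, hΦa]
    have h1 : (S x.2).degree < ((D + 2 : ℕ) : WithBot ℕ) :=
      (hSd _).trans_lt (by exact_mod_cast (by omega : D < D + 2))
    have h2 : (X * S x.1).degree < ((D + 2 : ℕ) : WithBot ℕ) := by
      refine (degree_mul_le _ _).trans_lt ?_
      rw [degree_X]
      calc (1 : WithBot ℕ) + (S x.1).degree ≤ 1 + (D : WithBot ℕ) := by gcongr; exact hSd _
        _ < ((D + 2 : ℕ) : WithBot ℕ) := by exact_mod_cast (by omega : 1 + D < D + 2)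
    exact (degree_sub_le _ _).trans_lt (max_lt h1 h2)
  have : Module.Finite ℚ (degreeLT ℚ (D + 2)) := Module.Finite.equiv (degreeLTEquiv ℚ (D + 2)).symm
  have hfr : Module.finrank ℚ (LinearMap.range Φ) ≤ D + 2 := by
    refine (Submodule.finrank_mono hrange).trans (le_of_eq ?_)
    rw [(degreeLTEquiv ℚ (D + 2)).finrank_eq, Module.finrank_fin_fun]
  have hrn := LinearMap.finrank_range_add_finrank_ker Φ
  rw [Module.finrank_prod, Module.finrank_fin_fun] at hrn
  obtain ⟨f, hf⟩ := exists_linearIndependent_of_le_finrank (R := ℚ) (M := LinearMap.ker Φ) (n := 3)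
    (by omega)
  have hfk : ∀ i, S (f i : (Fin r → ℚ) × (Fin r → ℚ)).2 = X * S (f i : (Fin r → ℚ) × (Fin r → ℚ)).1 := by
    intro i
    have h1 := (f i).2
    rw [LinearMap.mem_ker, hΦa, sub_eq_zero] at h1
    exact h1
  have hden : ∀ i, ∃ m : ℤ, m ≠ 0 ∧ ∃ A B : Fin r → ℤ,
      (∀ j, (A j : ℚ) = m * (f i : (Fin r → ℚ) × (Fin r → ℚ)).1 j) ∧
      ∀ j, (B j : ℚ) = m * (f i : (Fin r → ℚ) × (Fin r → ℚ)).2 j := by
    intro i
    obtain ⟨m, hm⟩ := IsLocalization.exist_integer_multiples_of_finite (nonZeroDivisors ℤ)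
      (Sum.elim (f i : (Fin r → ℚ) × (Fin r → ℚ)).1 (f i : (Fin r → ℚ) × (Fin r → ℚ)).2)
    choose z hz using hm
    refine ⟨m, nonZeroDivisors.ne_zero m.2, fun j => z (Sum.inl j), fun j => z (Sum.inr j),
      fun j => ?_, fun j => ?_⟩
    · have h1 := hz (Sum.inl j)
      simp only [Sum.elim_inl, algebraMap_int_eq, eq_intCast] at h1
      rw [h1, zsmul_eq_mul]
    · have h1 := hz (Sum.inr j)
      simp only [Sum.elim_inr, algebraMap_int_eq, eq_intCast] at h1
      rw [h1, zsmul_eq_mul]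
  choose m hm0 A B hA hB using hden
  have hmapsum : ∀ a : Fin r → ℤ, (∑ j, C (a j) * P j).map (Int.castRingHom ℚ) =
      ∑ j, (a j : ℚ) • p j := by
    intro a
    rw [Polynomial.map_sum]
    refine sum_congr rfl fun j _ => ?_
    rw [Polynomial.map_mul, Polynomial.map_C, hp, smul_eq_C_mul]
    rfl
  have hrel : ∀ i, X * ∑ j, C (A i j) * P j = ∑ j, C (B i j) * P j := by
    intro i
    apply Polynomial.map_injective (Int.castRingHom ℚ) Int.cast_injective
    rw [Polynomial.map_mul, Polynomial.map_X, hmapsum, hmapsum]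
    have e1 : ∑ j, (A i j : ℚ) • p j = (m i : ℚ) • S (f i : (Fin r → ℚ) × (Fin r → ℚ)).1 := by
      rw [hSa, smul_sum]
      exact sum_congr rfl fun j _ => by rw [hA, mul_smul]
    have e2 : ∑ j, (B i j : ℚ) • p j = (m i : ℚ) • S (f i : (Fin r → ℚ) × (Fin r → ℚ)).2 := by
      rw [hSa, smul_sum]
      exact sum_congr rfl fun j _ => by rw [hB, mul_smul]
    rw [e1, e2, hfk, mul_smul_comm]
  have hcoef : ∀ a : Fin r → ℤ, ∑ j, C (a j) * P j = 0 → ∀ j, a j = 0 := by
    intro a ha
    refine Fintype.linearIndependent_iff.1 hP a ?_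
    rw [← ha]
    exact sum_congr rfl fun j _ => by rw [smul_eq_C_mul]
  refine ⟨A, B, hrel, fun b hb => ?_⟩
  have hAz : ∀ j, ∑ i, b i * A i j = 0 := by
    refine hcoef _ ?_
    rw [← hb]
    simp only [mul_sum, map_sum, map_mul, sum_mul]
    rw [sum_comm]
    exact sum_congr rfl fun i _ => sum_congr rfl fun j _ => by ring
  have hBz : ∀ j, ∑ i, b i * B i j = 0 := by
    refine hcoef _ ?_
    have h1 : X * ∑ i, C (b i) * (∑ j, C (A i j) * P j) = 0 := by rw [hb, mul_zero]
    rw [← h1, mul_sum]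
    have e1 : ∀ i, X * (C (b i) * ∑ j, C (A i j) * P j) = C (b i) * ∑ j, C (B i j) * P j := by
      intro i
      rw [← hrel]
      ring
    simp only [e1]
    simp only [mul_sum, map_sum, map_mul, sum_mul]
    rw [sum_comm]
    exact sum_congr rfl fun i _ => sum_congr rfl fun j _ => by ring
  have hzero : ∑ i, ((b i : ℚ) * m i) • f i = 0 := by
    apply Subtype.ext
    rw [Submodule.coe_sum, Submodule.coe_zero]
    refine Prod.ext (funext fun j => ?_) (funext fun j => ?_)
    · have h1 : ((∑ i, b i * A i j : ℤ) : ℚ) = 0 := by exact_mod_cast hAz j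
      push_cast at h1
      rw [Prod.fst_sum, Finset.sum_apply]
      simp only [Submodule.coe_smul, Prod.smul_fst, Pi.smul_apply, smul_eq_mul, Prod.fst_zero,
        Pi.zero_apply]
      rw [← h1]
      exact sum_congr rfl fun i _ => by rw [hA]; ring
    · have h1 : ((∑ i, b i * B i j : ℤ) : ℚ) = 0 := by exact_mod_cast hBz j
      push_cast at h1
      rw [Prod.snd_sum, Finset.sum_apply]
      simp only [Submodule.coe_smul, Prod.smul_snd, Pi.smul_apply, smul_eq_mul, Prod.snd_zero,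
        Pi.zero_apply]
      rw [← h1]
      exact sum_congr rfl fun i _ => by rw [hB]; ring
  funext i
  have h1 := Fintype.linearIndependent_iff.1 hf _ hzero i
  have h2 : (m i : ℚ) ≠ 0 := by exact_mod_cast hm0 i
  have h3 : (b i : ℚ) = 0 := (mul_eq_zero.1 h1).resolve_right h2
  exact_mod_cast h3

end Pool.Agent.U664.SQ
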