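import Pool.Agent.U664.SQ.Scale

/-!
# The six exponentials theorem at every scale: approximations by monomials in algebraic numbers
-/

set_option autoImplicit false

namespace Pool.Agent.U664.SQ

open Complex Finset Pool.Agent.R347.SX Pool.Agent.R347.LW
open Pool.Agent.R347.GS (DI DI.mono DI.pow)

/-- The numbers `exp (y_m)`, `exp (s y_m)` are not all very close to given monomials in algebraic
numbers of degree at most `d` and height at most `N`. -/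
theorem six_mono {ι : Type} [Fintype ι] (s : ℂ) (y : Fin 3 → ℂ) (d κ : ℕ) (c : ℝ) (hc : 0 < c)
    (hs : ∀ (u : ℤ) (v : ℕ), 1 ≤ v → c ≤ (v : ℝ) ^ κ * ‖s - u / v‖)
    (hy : ∀ b : Fin 3 → ℤ, b ≠ 0 → ∀ H : ℕ, 1 ≤ H → (∀ m, |b m| ≤ H) →
      c ≤ (H : ℝ) ^ κ * ‖∑ m, (b m : ℂ) * y m‖) (e : Fin 2 × Fin 3 → ι → ℕ) :
    ∃ C N₀ : ℕ, 1 ≤ N₀ ∧ ∀ N ≥ N₀, ∀ α : ι → ℂ, (∀ i, RB d N (α i)) →
      ∃ p, Real.exp (-((N : ℝ) ^ C)) < ‖exp (cf s p.1 * y p.2) - ∏ i, α i ^ e p i‖ := by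
  classical
  obtain ⟨a, ha⟩ := PP_QQ_le
  obtain ⟨b, hb⟩ := nb_VB
  obtain ⟨g₀, hg₀⟩ : ∃ g₀ : ℕ, (1 / 2 : ℝ) ^ g₀ < c := exists_pow_lt_of_lt_one hc (by norm_num)
  obtain ⟨g, hg⟩ : ∃ g, g = b * κ + g₀ := ⟨_, rfl⟩
  obtain ⟨n, hn⟩ : ∃ n, n = Fintype.card ι := ⟨_, rfl⟩
  obtain ⟨E, hE⟩ : ∃ E, E = ∑ p, ∑ i, e p i := ⟨_, rfl⟩
  have hEp : ∀ p, ∑ i, e p i ≤ E := fun p => by
    rw [hE]
    exact single_le_sum (f := fun p => ∑ i, e p i) (fun _ _ => Nat.zero_le _) (mem_univ p)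
  obtain ⟨M, hM⟩ : ∃ M, M = (n + 1) * E := ⟨_, rfl⟩
  obtain ⟨X₀, hX₀⟩ : ∃ X₀, X₀ = ⌈‖s‖⌉₊ + ⌈∑ m, ‖y m‖⌉₊ + 2 + (n * d + 1) ^ (n * d + 1) + M := ⟨_, rfl⟩
  refine ⟨M * (a + g) + 1, 2 ^ ((a + g) * X₀), Nat.one_le_two_pow, fun N hN α hα => ?_⟩
  by_contra hcon
  push Not at hcon
  have hN1 : 1 ≤ N := Nat.one_le_two_pow.trans hN
  obtain ⟨l, hl⟩ : ∃ l, l = Nat.log 2 N := ⟨_, rfl⟩
  have hl1 : 2 ^ l ≤ N := by rw [hl]; exact Nat.pow_log_le_self 2 (by omega)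
  have hl2 : N < 2 ^ (l + 1) := by rw [hl]; exact Nat.lt_pow_succ_log_self (by norm_num) N
  obtain ⟨Y, hY⟩ : ∃ Y, Y = X₀ + M * l := ⟨_, rfl⟩
  have hY2 : 2 ≤ Y := by omega
  have hMY : M * (l + 1) ≤ Y := by rw [hY, mul_add, mul_one]; omega
  have hnE : n * E ≤ M := by rw [hM]; nlinarith
  have hEM : E ≤ M := by rw [hM]; nlinarith
  have hN6 : (N ^ n) ^ E ≤ 2 ^ Y := by
    calc (N ^ n) ^ E = N ^ (n * E) := by rw [← pow_mul]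
      _ ≤ (2 ^ (l + 1)) ^ (n * E) := Nat.pow_le_pow_left hl2.le _
      _ = 2 ^ (n * E * (l + 1)) := by rw [← pow_mul]; congr 1; ring
      _ ≤ 2 ^ Y := Nat.pow_le_pow_right (by norm_num) ((Nat.mul_le_mul_right _ hnE).trans hMY)
  have hNY : (N + 1) ^ E ≤ 2 ^ Y := by
    calc (N + 1) ^ E ≤ (2 ^ (l + 1)) ^ E := Nat.pow_le_pow_left (Nat.succ_le_of_lt hl2) _
      _ = 2 ^ (E * (l + 1)) := by rw [← pow_mul]; congr 1; ring
      _ ≤ 2 ^ Y := Nat.pow_le_pow_right (by norm_num) ((Nat.mul_le_mul_right _ hEM).trans hMY)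
  obtain ⟨L, hL1, hL2, hL3, B, D, hB, hD1, hD2, hint, hconj⟩ := common_field d N α hα
  rw [← hn] at hL3 hD2
  obtain ⟨A, hA⟩ : ∃ A : Fin 2 × Fin 3 → L, A = fun p => ∏ i, B i ^ e p i := ⟨_, rfl⟩
  have hAc : ∀ p, ((A p : L) : ℂ) = ∏ i, α i ^ e p i := by
    intro p
    rw [hA]
    push_cast
    exact prod_congr rfl fun i _ => by rw [hB]
  have hcj : ∀ p, ∀ σ : L ≃ₐ[ℚ] L, ‖((σ (A p) : L) : ℂ)‖ ≤ 2 ^ Y := by
    intro p σ
    have e1 : ((σ (A p) : L) : ℂ) = ∏ i, ((σ (B i) : L) : ℂ) ^ e p i := by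
      rw [hA]
      simp only [map_prod, map_pow]
      push_cast
      rfl
    rw [e1, norm_prod]
    calc ∏ i, ‖((σ (B i) : L) : ℂ) ^ e p i‖ ≤ ∏ i, ((N : ℝ) + 1) ^ e p i := by
          refine prod_le_prod (fun _ _ => norm_nonneg _) fun i _ => ?_
          rw [norm_pow]
          exact pow_le_pow_left₀ (norm_nonneg _) (hconj i σ) _
      _ = ((N : ℝ) + 1) ^ ∑ i, e p i := by rw [prod_pow_eq_pow_sum]
      _ ≤ ((N : ℝ) + 1) ^ E := pow_le_pow_right₀ (by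
          have : (0 : ℝ) ≤ N := by positivity
          linarith) (hEp p)
      _ ≤ 2 ^ Y := by exact_mod_cast hNY
  have hDI1 : ∀ i, DI D 1 (B i) := by
    intro i
    unfold DI
    rw [pow_one]
    exact hint i
  have hDI : ∀ p, DI (D ^ E) 1 (A p) := by
    intro p
    have h1 : DI D (∑ i, e p i * 1) (∏ i, B i ^ e p i) :=
      DI.prod (D := D) univ (fun i => e p i * 1) (fun i => B i ^ e p i) fun i _ => (hDI1 i).pow _
    simp only [mul_one] at h1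
    have h2 := h1.mono (hEp p)
    unfold DI at h2 ⊢
    rw [hA, pow_one]
    push_cast
    exact h2
  have hX₀Y : X₀ ≤ Y := by omega
  have hX₀R : (X₀ : ℝ) ≤ Y := by exact_mod_cast hX₀Y
  have c1 := Nat.le_ceil ‖s‖
  have c2 := Nat.le_ceil (∑ m, ‖y m‖)
  have hX₀e : (X₀ : ℝ) = ⌈‖s‖⌉₊ + ⌈∑ m, ‖y m‖⌉₊ + 2 + (n * d + 1) ^ (n * d + 1) + M := by
    rw [hX₀]; push_cast; ring
  have p1 : (0 : ℝ) ≤ ⌈‖s‖⌉₊ := by positivity
  have p2 : (0 : ℝ) ≤ ⌈∑ m, ‖y m‖⌉₊ := by positivity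
  have p3 : (0 : ℝ) ≤ (n * d + 1 : ℝ) ^ (n * d + 1) := by positivity
  have p4 : (0 : ℝ) ≤ M := by positivity
  have hsY : ‖s‖ ≤ Y := by linarith
  have hyY : ∑ m, ‖y m‖ ≤ Y := by linarith
  obtain ⟨V, hV⟩ : ∃ V, V = 2 ^ (g * Y) := ⟨_, rfl⟩
  have hV1 : 1 ≤ V := by rw [hV]; exact Nat.one_le_two_pow
  obtain ⟨Λ, hΛ⟩ : ∃ Λ, Λ = 2 ^ (a * Y) * V := ⟨_, rfl⟩
  have hΛN : Λ ≤ N ^ (M * (a + g) + 1) := by
    calc Λ = 2 ^ ((a + g) * X₀) * (2 ^ l) ^ (M * (a + g)) := by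
          rw [hΛ, hV, ← pow_add, ← pow_mul, ← pow_add]; congr 1; rw [hY]; ring
      _ ≤ N * N ^ (M * (a + g)) := Nat.mul_le_mul hN (Nat.pow_le_pow_left hl1 _)
      _ = N ^ (M * (a + g) + 1) := by rw [pow_succ]; ring
  have herr : Real.exp (-((N : ℝ) ^ (M * (a + g) + 1))) ≤ ((2 : ℝ) ^ Λ)⁻¹ := by
    rw [Real.exp_neg]
    refine inv_anti₀ (by positivity) ?_
    have h1 : (2 : ℝ) ≤ Real.exp 1 := by
      have := Real.add_one_le_exp (1 : ℝ)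
      linarith
    calc (2 : ℝ) ^ Λ ≤ Real.exp 1 ^ Λ := by gcongr
      _ = Real.exp Λ := by rw [← Real.exp_nat_mul, mul_one]
      _ ≤ Real.exp ((N : ℝ) ^ (M * (a + g) + 1)) := by
          apply Real.exp_le_exp.2
          exact_mod_cast hΛN
  have hres := six_quant Y V Λ hY2 hV1 (by rw [hΛ]; exact ha Y V hY2 hV1) s y hsY hyY L
    (hL3.trans (by omega)) A (D ^ E) (Nat.one_le_pow _ _ hD1)
    ((Nat.pow_le_pow_left hD2 E).trans hN6) hDI hcj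
    (fun p => by rw [hAc]; exact (hcon p).trans herr)
  have hVinv : (2 : ℝ) ^ (b * Y * κ) * (V : ℝ)⁻¹ < c := by
    have e1 : (V : ℝ)⁻¹ = ((2 : ℝ) ^ (b * Y * κ))⁻¹ * ((2 : ℝ) ^ (g₀ * Y))⁻¹ := by
      rw [hV, hg, ← mul_inv, ← pow_add]
      push_cast
      congr 2
      ring
    rw [e1, ← mul_assoc, mul_inv_cancel₀ (by positivity), one_mul]
    refine lt_of_le_of_lt ?_ hg₀
    rw [one_div, inv_pow]
    refine inv_anti₀ (by positivity) ?_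
    exact pow_le_pow_right₀ (by norm_num) (Nat.le_mul_of_pos_right _ (by omega))
  rcases hres with ⟨u, v, hv1, hv2, huv⟩ | ⟨z, hz0, hzB, hzs⟩
  · have h1 := hs u v hv1
    have h2 : (v : ℝ) ^ κ ≤ (2 : ℝ) ^ (b * Y * κ) := by
      rw [pow_mul]
      refine pow_le_pow_left₀ (by positivity) ?_ κ
      exact_mod_cast hv2.trans (hb Y hY2)
    have h3 : (v : ℝ) ^ κ * ‖s - u / v‖ ≤ (2 : ℝ) ^ (b * Y * κ) * (V : ℝ)⁻¹ :=
      mul_le_mul h2 huv (norm_nonneg _) (by positivity)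
    linarith
  · have h1 := hy z hz0 (2 ^ (b * Y)) Nat.one_le_two_pow (fun m => (hzB m).trans (by
      exact_mod_cast hb Y hY2))
    have h2 : (((2 ^ (b * Y) : ℕ)) : ℝ) ^ κ = (2 : ℝ) ^ (b * Y * κ) := by
      push_cast
      rw [← pow_mul]
    rw [h2] at h1
    have h3 : (2 : ℝ) ^ (b * Y * κ) * ‖∑ m, (z m : ℂ) * y m‖ ≤ (2 : ℝ) ^ (b * Y * κ) * (V : ℝ)⁻¹ :=
      mul_le_mul_of_nonneg_left hzs (by positivity)
    linarith

end Pool.Agent.U664.SQ
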