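import Pool.Agent.R347.SX.Final

/-!
# The sizes of the parameters of the quantitative six exponentials theorem
-/

set_option autoImplicit false

namespace Pool.Agent.U664.SQ

open Pool.Agent.R347.SX

/-- at most exponential growth -/
def NB (f : ℕ → ℕ) : Prop := ∃ a : ℕ, ∀ Y, 2 ≤ Y → f Y ≤ 2 ^ (a * Y)

theorem NB.const (c : ℕ) : NB fun _ => c := ⟨c, fun Y hY => by
  have h1 : c < 2 ^ c := Nat.lt_two_pow_self
  have h2 : 2 ^ c ≤ 2 ^ (c * Y) := Nat.pow_le_pow_right (by norm_num) (Nat.le_mul_of_pos_right c (by omega))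
  exact h1.le.trans h2⟩

theorem NB.id : NB fun Y => Y := ⟨1, fun Y _ => by
  rw [one_mul]; exact Nat.lt_two_pow_self.le⟩

theorem NB.mul {f g : ℕ → ℕ} (hf : NB f) (hg : NB g) : NB fun Y => f Y * g Y := by
  obtain ⟨a, ha⟩ := hf
  obtain ⟨b, hb⟩ := hg
  refine ⟨a + b, fun Y hY => ?_⟩
  rw [add_mul, pow_add]
  exact Nat.mul_le_mul (ha Y hY) (hb Y hY)

theorem NB.add {f g : ℕ → ℕ} (hf : NB f) (hg : NB g) : NB fun Y => f Y + g Y := by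
  obtain ⟨a, ha⟩ := hf
  obtain ⟨b, hb⟩ := hg
  refine ⟨a + b + 1, fun Y hY => ?_⟩
  have h1 := ha Y hY
  have h2 := hb Y hY
  have h3 : 2 ^ (a * Y) ≤ 2 ^ ((a + b) * Y) := Nat.pow_le_pow_right (by norm_num)
    (Nat.mul_le_mul_right _ (by omega))
  have h4 : 2 ^ (b * Y) ≤ 2 ^ ((a + b) * Y) := Nat.pow_le_pow_right (by norm_num)
    (Nat.mul_le_mul_right _ (by omega))
  have h5 : 2 ^ ((a + b) * Y + 1) ≤ 2 ^ ((a + b + 1) * Y) := Nat.pow_le_pow_right (by norm_num)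
    (by rw [add_mul (a + b) 1 Y]; omega)
  rw [pow_succ] at h5
  show f Y + g Y ≤ _
  omega

theorem NB.pow {f : ℕ → ℕ} (hf : NB f) (n : ℕ) : NB fun Y => f Y ^ n := by
  obtain ⟨a, ha⟩ := hf
  refine ⟨a * n, fun Y hY => ?_⟩
  rw [show a * n * Y = a * Y * n by ring, pow_mul]
  exact Nat.pow_le_pow_left (ha Y hY) n

theorem nb_ss : NB ss := ⟨16, fun _ _ => le_rfl⟩

theorem nb_DD : NB DD :=
  NB.mul (NB.mul (NB.const 4) (NB.pow (NB.add NB.id (NB.const 2)) 2)) (NB.pow nb_ss 3)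

theorem nb_SS : NB SS :=
  NB.mul (NB.mul (NB.const 2) (NB.add NB.id (NB.const 2))) (NB.pow nb_ss 2)

theorem nb_Tf : NB Tf := NB.add (NB.mul (NB.const 16) (NB.pow nb_DD 6)) (NB.const 1)

theorem nb_tt : NB tt := NB.mul (NB.const 320) NB.id

theorem nb_gam {T : ℕ → ℕ} (hT : NB T) : NB fun Y => gam Y (T Y) :=
  NB.mul (NB.mul (NB.mul (NB.const 20) (NB.pow NB.id 2)) nb_DD) hT

theorem nb_hh {T : ℕ → ℕ} (hT : NB T) : NB fun Y => hh Y (T Y) :=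
  NB.mul (NB.mul (NB.mul (NB.const 6) NB.id) hT) nb_DD

theorem nb_EE : NB EE :=
  NB.add (NB.add (NB.add (NB.add (NB.const 3) nb_tt) (nb_gam nb_SS))
    (NB.mul (NB.pow NB.id 2) (NB.mul (NB.mul (NB.const 6) nb_SS) nb_DD)))
    (NB.mul NB.id (NB.add nb_tt (nb_hh nb_SS)))

theorem nb_lam {T : ℕ → ℕ} (hT : NB T) : NB fun Y => lam Y (T Y) :=
  NB.mul NB.id (NB.add (NB.mul NB.id (NB.mul (NB.mul (NB.const 6) hT) nb_DD))
    (NB.add (NB.add nb_tt nb_EE) (nb_hh hT)))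

theorem nb_VB : NB VB :=
  NB.add (NB.add (NB.mul (NB.mul (NB.const 4) (NB.add (NB.mul (NB.mul nb_DD (NB.pow NB.id 2)) nb_Tf)
    (NB.const 1))) nb_Tf) nb_Tf) nb_DD

theorem nb_QQ : NB QQ :=
  NB.add (NB.add (NB.const 3) (NB.mul (NB.const 2) nb_tt))
    (NB.mul (NB.add (NB.mul (NB.const 2) (NB.pow NB.id 2)) (NB.mul (NB.const 2) NB.id))
      (NB.mul (NB.const 6) (NB.mul nb_Tf nb_DD)))

/-- the size of the error -/
theorem PP_QQ_le : ∃ a : ℕ, ∀ Y V : ℕ, 2 ≤ Y → 1 ≤ V → PP Y V + QQ Y ≤ 2 ^ (a * Y) * V := by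
  obtain ⟨a, ha⟩ : NB fun Y => 10 + 4 * tt Y + EE Y + (4 + Y + tt Y + 1) * Tf Y ^ 3 + lam Y (Tf Y) +
      QQ Y :=
    NB.add (NB.add (NB.add (NB.add (NB.add (NB.const 10) (NB.mul (NB.const 4) nb_tt)) nb_EE)
      (NB.mul (NB.add (NB.add (NB.add (NB.const 4) NB.id) nb_tt) (NB.const 1)) (NB.pow nb_Tf 3)))
      (nb_lam nb_Tf)) nb_QQ
  refine ⟨a, fun Y V hY hV => ?_⟩
  have h1 : 4 + Y + tt Y + V ≤ (4 + Y + tt Y + 1) * V := by nlinarith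
  have h2 : (4 + Y + tt Y + V) * Tf Y ^ 3 ≤ (4 + Y + tt Y + 1) * V * Tf Y ^ 3 :=
    Nat.mul_le_mul_right _ h1
  have h3 : ∀ x : ℕ, x ≤ x * V := fun x => Nat.le_mul_of_pos_right x hV
  calc PP Y V + QQ Y
      ≤ (10 + 4 * tt Y + EE Y) * V + (4 + Y + tt Y + 1) * V * Tf Y ^ 3 + lam Y (Tf Y) * V + QQ Y * V := by
        unfold PP
        have := h3 (10 + 4 * tt Y + EE Y)
        have := h3 (lam Y (Tf Y))
        have := h3 (QQ Y)
        omega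
    _ = (10 + 4 * tt Y + EE Y + (4 + Y + tt Y + 1) * Tf Y ^ 3 + lam Y (Tf Y) + QQ Y) * V := by ring
    _ ≤ 2 ^ (a * Y) * V := Nat.mul_le_mul_right _ (ha Y hY)

end Pool.Agent.U664.SQ
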