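import Pool.Agent.U664.SQ.Scale
import Pool.Agent.U492.GP.Main
import Pool.Agent.TH456.TM.E

/-!
# Exponentials of polynomials at every scale
-/

set_option autoImplicit false

namespace Pool.Agent.U664.SQ

open Complex Finset Polynomial Pool.Agent.R347.SX Pool.Agent.R347.LW Pool.Agent.TH456.TM

/-- `x` has an algebraic approximation of degree at most `d` and height at most `N`, with an error of at
most `exp (- N ^ C)`. -/
def Near (d C N : ℕ) (x : ℂ) : Prop := ∃ α : ℂ, RB d N α ∧ ‖x - α‖ ≤ Real.exp (-((N : ℝ) ^ C))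

theorem Near.anti {d C C' N : ℕ} {x : ℂ} (h : Near d C' N x) (hC : C ≤ C') (hN : 1 ≤ N) :
    Near d C N x := by
  obtain ⟨α, hα, hx⟩ := h
  refine ⟨α, hα, hx.trans (Real.exp_le_exp.2 (neg_le_neg ?_))⟩
  exact pow_le_pow_right₀ (by exact_mod_cast hN) hC

/-- a bound for degrees and coefficients of finitely many polynomials -/
theorem exists_bound {n : ℕ} (P : Fin n → ℤ[X]) : ∃ D h : ℕ, 1 ≤ h ∧ ∀ m, (P m).natDegree ≤ D ∧
    ∀ j, |(P m).coeff j| ≤ h := by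
  classical
  refine ⟨univ.sup fun m => (P m).natDegree,
    1 + univ.sup fun m => (P m).support.sup fun j => ((P m).coeff j).natAbs, by omega,
    fun m => ⟨le_sup (f := fun m => (P m).natDegree) (mem_univ m), fun j => ?_⟩⟩
  by_cases hj : j ∈ (P m).support
  · have h1 : ((P m).coeff j).natAbs ≤ (P m).support.sup fun j => ((P m).coeff j).natAbs :=
      le_sup (f := fun j => ((P m).coeff j).natAbs) hj
    have h2 : ((P m).support.sup fun j => ((P m).coeff j).natAbs) ≤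
        univ.sup fun m => (P m).support.sup fun j => ((P m).coeff j).natAbs :=
      le_sup (f := fun m => (P m).support.sup fun j => ((P m).coeff j).natAbs) (mem_univ m)
    rw [Int.abs_eq_natAbs]
    exact_mod_cast (h1.trans h2).trans (by omega)
  · rw [notMem_support_iff.1 hj, abs_zero]
    positivity

/-- integral combinations of the `ξ P_m(t)` -/
theorem low_comb {t : ℂ} (ht : MeasT t) {ξ : ℂ} (hξ : ξ ≠ 0) (P : Fin 3 → ℤ[X])
    (hP : ∀ b : Fin 3 → ℤ, ∑ m, C (b m) * P m = 0 → b = 0) :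
    ∃ (κ : ℕ) (c : ℝ), 0 < c ∧ ∀ b : Fin 3 → ℤ, b ≠ 0 → ∀ H : ℕ, 1 ≤ H → (∀ m, |b m| ≤ H) →
      c ≤ (H : ℝ) ^ κ * ‖∑ m, (b m : ℂ) * (ξ * aeval t (P m))‖ := by
  obtain ⟨D, h, hh, hb⟩ := exists_bound P
  obtain ⟨κ, c, hκ, hc, hm⟩ := ht D
  have hξ0 : 0 < ‖ξ‖ := norm_pos_iff.2 hξ
  refine ⟨⌈κ⌉₊, c * ‖ξ‖ / (3 * h) ^ ⌈κ⌉₊, by positivity, fun b hb0 H hH hbH => ?_⟩
  obtain ⟨R, hR⟩ : ∃ R, R = ∑ m, C (b m) * P m := ⟨_, rfl⟩
  have hR0 : R ≠ 0 := fun h0 => hb0 (hP b (hR ▸ h0))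
  have hRd : R.natDegree ≤ D := by
    rw [hR]
    refine natDegree_sum_le_of_forall_le _ _ fun m _ => ?_
    exact (natDegree_C_mul_le _ _).trans (hb m).1
  have hhH : (1 : ℝ) ≤ 3 * h * H := by
    have h1 : (1 : ℝ) ≤ h := by exact_mod_cast hh
    have h2 : (1 : ℝ) ≤ H := by exact_mod_cast hH
    nlinarith
  have hRc : ∀ j, |(R.coeff j : ℝ)| ≤ 3 * h * H := by
    intro j
    have e1 : R.coeff j = ∑ m, b m * (P m).coeff j := by
      rw [hR, finset_sum_coeff]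
      exact sum_congr rfl fun m _ => coeff_C_mul _
    have e2 : |R.coeff j| ≤ 3 * h * H := by
      rw [e1]
      refine (abs_sum_le_sum_abs _ _).trans ?_
      have e3 : ∀ m ∈ (univ : Finset (Fin 3)), |b m * (P m).coeff j| ≤ H * h := fun m _ => by
        rw [abs_mul]
        exact mul_le_mul (hbH m) ((hb m).2 j) (abs_nonneg _) (by positivity)
      refine (sum_le_card_nsmul _ _ _ e3).trans ?_
      simp only [card_univ, Fintype.card_fin, nsmul_eq_mul]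
      push_cast
      apply le_of_eq
      ring
    exact_mod_cast e2
  have h1 := hm R hR0 hRd _ hhH hRc
  have h2 : (3 * (h : ℝ) * H) ^ κ ≤ (3 * (h : ℝ) * H) ^ ⌈κ⌉₊ := by
    rw [← Real.rpow_natCast]
    exact Real.rpow_le_rpow_of_exponent_le hhH (Nat.le_ceil κ)
  have h3 : ∑ m, (b m : ℂ) * (ξ * aeval t (P m)) = ξ * aeval t R := by
    rw [hR, map_sum, mul_sum]
    refine sum_congr rfl fun m _ => ?_
    rw [map_mul, aeval_C]
    simp only [algebraMap_int_eq, eq_intCast]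
    ring
  rw [h3, norm_mul, div_le_iff₀ (by positivity)]
  have h4 : c ≤ (3 * (h : ℝ) * H) ^ ⌈κ⌉₊ * ‖aeval t R‖ :=
    h1.trans (mul_le_mul_of_nonneg_right h2 (norm_nonneg _))
  calc c * ‖ξ‖ ≤ (3 * (h : ℝ) * H) ^ ⌈κ⌉₊ * ‖aeval t R‖ * ‖ξ‖ := mul_le_mul_of_nonneg_right h4 hξ0.le
    _ = (H : ℝ) ^ ⌈κ⌉₊ * (‖ξ‖ * ‖aeval t R‖) * (3 * h) ^ ⌈κ⌉₊ := by rw [mul_pow]; ring

/-- rational functions -/
theorem low_ratio {t : ℂ} (ht : MeasT t) (P Q : ℤ[X]) (hPQ : ∀ a b : ℤ, C a * P = C b * Q → b = 0)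
    {s : ℂ} (hs : s * aeval t P = aeval t Q) :
    ∃ (κ : ℕ) (c : ℝ), 0 < c ∧ ∀ (u : ℤ) (v : ℕ), 1 ≤ v → c ≤ (v : ℝ) ^ κ * ‖s - u / v‖ := by
  obtain ⟨D, h, hh, hb⟩ := exists_bound ![P, Q]
  have hbP := hb 0
  have hbQ := hb 1
  simp only [Matrix.cons_val_zero, Matrix.cons_val_one] at hbP hbQ
  obtain ⟨κ, c, hκ, hc, hm⟩ := ht D
  obtain ⟨M, hM⟩ : ∃ M : ℕ, M = ⌈‖s‖⌉₊ + 1 := ⟨_, rfl⟩
  have hMs : ‖s‖ + 1 ≤ M := by
    rw [hM]
    push_cast
    have := Nat.le_ceil ‖s‖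
    linarith
  obtain ⟨c₁, hc₁⟩ : ∃ c₁ : ℝ, c₁ = c / (((M + 1) * h : ℝ) ^ ⌈κ⌉₊ * (‖aeval t P‖ + 1)) := ⟨_, rfl⟩
  have hc₁0 : 0 < c₁ := by rw [hc₁]; positivity
  refine ⟨⌈κ⌉₊ + 1, min c₁ 1, lt_min hc₁0 one_pos, fun u v hv => ?_⟩
  have hvR : (1 : ℝ) ≤ v := by exact_mod_cast hv
  have hv0 : (v : ℂ) ≠ 0 := by
    have : v ≠ 0 := by omega
    exact_mod_cast this
  have hvp : (1 : ℝ) ≤ (v : ℝ) ^ (⌈κ⌉₊ + 1) := one_le_pow₀ hvR
  rcases le_or_gt ‖s - u / v‖ 1 with hle | hgt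
  · refine (min_le_left _ _).trans ?_
    obtain ⟨R, hR⟩ : ∃ R, R = C (v : ℤ) * Q - C u * P := ⟨_, rfl⟩
    have hR0 : R ≠ 0 := by
      intro h0
      have h1 : C u * P = C (v : ℤ) * Q := (sub_eq_zero.1 (hR ▸ h0)).symm
      have h2 := hPQ u v h1
      omega
    have hRd : R.natDegree ≤ D := by
      rw [hR]
      refine (natDegree_sub_le _ _).trans (max_le ?_ ?_)
      · exact (natDegree_C_mul_le _ _).trans hbQ.1
      · exact (natDegree_C_mul_le _ _).trans hbP.1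
    have hu : |(u : ℝ)| ≤ v * M := by
      have h1 : ‖(u : ℂ) / v‖ ≤ ‖s‖ + 1 := by
        have e1 : (u : ℂ) / v = s - (s - u / v) := by ring
        rw [e1]
        exact (norm_sub_le _ _).trans (by linarith)
      rw [norm_div, Complex.norm_intCast, Complex.norm_natCast, div_le_iff₀ (by positivity)] at h1
      nlinarith
    have hH1 : (1 : ℝ) ≤ v * ((M + 1) * h) := by
      have h1 : (1 : ℝ) ≤ h := by exact_mod_cast hh
      have h2 : (0 : ℝ) ≤ M := by positivity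
      nlinarith [mul_nonneg h2 (by linarith : (0 : ℝ) ≤ h)]
    have hRc : ∀ j, |(R.coeff j : ℝ)| ≤ v * ((M + 1) * h) := by
      intro j
      have e1 : (R.coeff j : ℝ) = v * (Q.coeff j : ℝ) - u * (P.coeff j : ℝ) := by
        rw [hR, coeff_sub, coeff_C_mul, coeff_C_mul]
        push_cast
        ring
      have e2 : |(Q.coeff j : ℝ)| ≤ h := by exact_mod_cast hbQ.2 j
      have e3 : |(P.coeff j : ℝ)| ≤ h := by exact_mod_cast hbP.2 j
      rw [e1]
      calc |(v : ℝ) * Q.coeff j - u * P.coeff j| ≤ |(v : ℝ) * Q.coeff j| + |(u : ℝ) * P.coeff j| :=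
            abs_sub _ _
        _ ≤ v * h + v * M * h := by
            rw [abs_mul, abs_mul, abs_of_nonneg (by positivity : (0 : ℝ) ≤ v)]
            gcongr
        _ = v * ((M + 1) * h) := by ring
    have h1 := hm R hR0 hRd _ hH1 hRc
    have h2 : ((v : ℝ) * ((M + 1) * h)) ^ κ ≤ ((v : ℝ) * ((M + 1) * h)) ^ ⌈κ⌉₊ := by
      rw [← Real.rpow_natCast]
      exact Real.rpow_le_rpow_of_exponent_le hH1 (Nat.le_ceil κ)
    have h3 : aeval t R = v * (aeval t P * (s - u / v)) := by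
      rw [hR, map_sub, map_mul, map_mul, aeval_C, aeval_C, ← hs]
      simp only [algebraMap_int_eq, eq_intCast, Int.cast_natCast]
      field_simp
    have h4 : ‖aeval t R‖ ≤ v * ((‖aeval t P‖ + 1) * ‖s - u / v‖) := by
      rw [h3, norm_mul, norm_mul, Complex.norm_natCast]
      gcongr
      linarith
    rw [hc₁, div_le_iff₀ (by positivity)]
    calc c ≤ ((v : ℝ) * ((M + 1) * h)) ^ κ * ‖aeval t R‖ := h1
      _ ≤ ((v : ℝ) * ((M + 1) * h)) ^ ⌈κ⌉₊ * (v * ((‖aeval t P‖ + 1) * ‖s - u / v‖)) := by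
          gcongr
      _ = (v : ℝ) ^ (⌈κ⌉₊ + 1) * ‖s - u / v‖ * (((M + 1) * h : ℝ) ^ ⌈κ⌉₊ * (‖aeval t P‖ + 1)) := by
          rw [mul_pow, pow_succ]; ring
  · refine (min_le_right _ _).trans ?_
    nlinarith

/-- **Pairs of triples.** -/
theorem triple {t : ℂ} (ht : MeasT t) {ξ : ℂ} (hξ : ξ ≠ 0) (d : ℕ) (P Q : Fin 3 → ℤ[X])
    (hP : ∀ b : Fin 3 → ℤ, ∑ m, C (b m) * P m = 0 → b = 0)
    (hPQ : ∀ i j, Q i * P j = Q j * P i) (h0 : ∀ a b : ℤ, C a * P 0 = C b * Q 0 → b = 0) :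
    ∃ C₀ N₀ : ℕ, 1 ≤ N₀ ∧ ∀ N ≥ N₀, ∀ K ≥ C₀, ∃ i, ¬ (Near d K N (exp (ξ * aeval t (P i))) ∧
      Near d K N (exp (ξ * aeval t (Q i)))) := by
  have hP0 : ∀ i, P i ≠ 0 := by
    intro i hi
    have h1 := hP (Pi.single i 1) (by
      rw [sum_eq_single i]
      · rw [hi, mul_zero]
      · intro j _ hj
        rw [Pi.single_eq_of_ne hj, C_0, zero_mul]
      · intro h; exact absurd (mem_univ i) h)
    have h2 := congrFun h1 i
    simp at h2
  have htr := transcendental_of_measT ht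
  have hPt : ∀ i, aeval t (P i) ≠ 0 := fun i h => htr ⟨P i, hP0 i, h⟩
  obtain ⟨s, hs⟩ : ∃ s, s = aeval t (Q 0) / aeval t (P 0) := ⟨_, rfl⟩
  have hs0 : s * aeval t (P 0) = aeval t (Q 0) := by rw [hs, div_mul_cancel₀ _ (hPt 0)]
  have hsi : ∀ i, s * (ξ * aeval t (P i)) = ξ * aeval t (Q i) := by
    intro i
    have h1 := congrArg (aeval t) (hPQ i 0)
    rw [map_mul, map_mul] at h1
    rw [hs, div_mul_eq_mul_div, div_eq_iff (hPt 0)]
    linear_combination (-ξ) * h1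
  obtain ⟨κ₁, c₁, hc₁, h₁⟩ := low_ratio ht (P 0) (Q 0) h0 hs0
  obtain ⟨κ₂, c₂, hc₂, h₂⟩ := low_comb ht hξ P hP
  obtain ⟨C₀, N₀, hN₀, h⟩ := six_scale s (fun i => ξ * aeval t (P i)) d (max κ₁ κ₂) (min c₁ c₂)
    (lt_min hc₁ hc₂) (fun u v hv => by
      refine (min_le_left _ _).trans ((h₁ u v hv).trans ?_)
      refine mul_le_mul_of_nonneg_right ?_ (norm_nonneg _)
      exact pow_le_pow_right₀ (by exact_mod_cast hv) (le_max_left _ _))
    (fun b hb H hH hbH => by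
      refine (min_le_right _ _).trans ((h₂ b hb H hH hbH).trans ?_)
      refine mul_le_mul_of_nonneg_right ?_ (norm_nonneg _)
      exact pow_le_pow_right₀ (by exact_mod_cast hH) (le_max_right _ _))
  refine ⟨C₀, N₀, hN₀, fun N hN K hK => ?_⟩
  by_contra hcon
  push Not at hcon
  choose α hα hαe using fun i => ((hcon i).1.anti hK (hN₀.trans hN) : Near d C₀ N _)
  choose β hβ hβe using fun i => ((hcon i).2.anti hK (hN₀.trans hN) : Near d C₀ N _)
  obtain ⟨⟨i, m⟩, hp⟩ := h N hN (fun p => if p.1 = 0 then α p.2 else β p.2) (fun p => by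
    by_cases hp : p.1 = 0
    · simp only [hp, if_true]; exact hα _
    · simp only [hp, if_false]; exact hβ _)
  by_cases hi : i = 0
  · simp only [hi, cf, if_true, one_mul] at hp
    exact absurd (hαe m) (not_le.2 hp)
  · simp only [hi, cf, if_false, hsi] at hp
    exact absurd (hβe m) (not_le.2 hp)

end Pool.Agent.U664.SQ
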