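import Pool.Agent.U664.SQ.Num
import Pool.Agent.R347.LW.QuantE

/-!
# The six exponentials theorem at every scale
-/

set_option autoImplicit false

namespace Pool.Agent.U664.SQ

open Complex Finset Pool.Agent.R347.SX Pool.Agent.R347.LW
open Pool.Agent.R347.GS (DI)

theorem six_scale (s : ℂ) (y : Fin 3 → ℂ) (d κ : ℕ) (c : ℝ) (hc : 0 < c)
    (hs : ∀ (u : ℤ) (v : ℕ), 1 ≤ v → c ≤ (v : ℝ) ^ κ * ‖s - u / v‖)
    (hy : ∀ b : Fin 3 → ℤ, b ≠ 0 → ∀ H : ℕ, 1 ≤ H → (∀ m, |b m| ≤ H) →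
      c ≤ (H : ℝ) ^ κ * ‖∑ m, (b m : ℂ) * y m‖) :
    ∃ C N₀ : ℕ, 1 ≤ N₀ ∧ ∀ N ≥ N₀, ∀ A : Fin 2 × Fin 3 → ℂ, (∀ p, RB d N (A p)) →
      ∃ p, Real.exp (-((N : ℝ) ^ C)) < ‖exp (cf s p.1 * y p.2) - A p‖ := by
  classical
  obtain ⟨a, ha⟩ := PP_QQ_le
  obtain ⟨b, hb⟩ := nb_VB
  obtain ⟨g₀, hg₀⟩ : ∃ g₀ : ℕ, (1 / 2 : ℝ) ^ g₀ < c := exists_pow_lt_of_lt_one hc (by norm_num)
  obtain ⟨g, hg⟩ : ∃ g, g = b * κ + g₀ := ⟨_, rfl⟩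
  obtain ⟨X₀, hX₀⟩ : ∃ X₀, X₀ = ⌈‖s‖⌉₊ + ⌈∑ m, ‖y m‖⌉₊ + 2 + (6 * d + 1) ^ (6 * d + 1) + 6 := ⟨_, rfl⟩
  refine ⟨6 * (a + g) + 1, 2 ^ ((a + g) * X₀), Nat.one_le_two_pow, fun N hN A hA => ?_⟩
  by_contra hcon
  push Not at hcon
  have hN1 : 1 ≤ N := Nat.one_le_two_pow.trans hN
  obtain ⟨l, hl⟩ : ∃ l, l = Nat.log 2 N := ⟨_, rfl⟩
  have hl1 : 2 ^ l ≤ N := by rw [hl]; exact Nat.pow_log_le_self 2 (by omega)
  have hl2 : N < 2 ^ (l + 1) := by rw [hl]; exact Nat.lt_pow_succ_log_self (by norm_num) N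
  obtain ⟨Y, hY⟩ : ∃ Y, Y = X₀ + 6 * l := ⟨_, rfl⟩
  have hY2 : 2 ≤ Y := by omega
  have hN6 : N ^ 6 ≤ 2 ^ Y := by
    calc N ^ 6 ≤ (2 ^ (l + 1)) ^ 6 := Nat.pow_le_pow_left hl2.le 6
      _ = 2 ^ (6 * l + 6) := by rw [← pow_mul]; congr 1; ring
      _ ≤ 2 ^ Y := Nat.pow_le_pow_right (by norm_num) (by omega)
  have hNY : N + 1 ≤ 2 ^ Y :=
    (Nat.succ_le_of_lt hl2).trans (Nat.pow_le_pow_right (by norm_num) (by omega))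
  obtain ⟨L, hL1, hL2, hL3, B, D, hB, hD1, hD2, hint, hconj⟩ := common_field d N A hA
  have hcard : Fintype.card (Fin 2 × Fin 3) = 6 := by simp
  rw [hcard] at hL3 hD2
  have hcj : ∀ i, ∀ σ : L ≃ₐ[ℚ] L, ‖((σ (B i) : L) : ℂ)‖ ≤ 2 ^ Y := by
    intro i σ
    refine (hconj i σ).trans ?_
    exact_mod_cast hNY
  have hDI : ∀ i, DI D 1 (B i) := by
    intro i
    unfold DI
    rw [pow_one]
    exact hint i
  have hX₀Y : X₀ ≤ Y := by omega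
  have hX₀R : (X₀ : ℝ) ≤ Y := by exact_mod_cast hX₀Y
  have c1 := Nat.le_ceil ‖s‖
  have c2 := Nat.le_ceil (∑ m, ‖y m‖)
  have hX₀e : (X₀ : ℝ) = ⌈‖s‖⌉₊ + ⌈∑ m, ‖y m‖⌉₊ + 2 + (6 * d + 1) ^ (6 * d + 1) + 6 := by
    rw [hX₀]; push_cast; ring
  have p1 : (0 : ℝ) ≤ ⌈‖s‖⌉₊ := by positivity
  have p2 : (0 : ℝ) ≤ ⌈∑ m, ‖y m‖⌉₊ := by positivity
  have p3 : (0 : ℝ) ≤ (6 * d + 1 : ℝ) ^ (6 * d + 1) := by positivity
  have hsY : ‖s‖ ≤ Y := by linarith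
  have hyY : ∑ m, ‖y m‖ ≤ Y := by linarith
  obtain ⟨V, hV⟩ : ∃ V, V = 2 ^ (g * Y) := ⟨_, rfl⟩
  have hV1 : 1 ≤ V := by rw [hV]; exact Nat.one_le_two_pow
  obtain ⟨Λ, hΛ⟩ : ∃ Λ, Λ = 2 ^ (a * Y) * V := ⟨_, rfl⟩
  have hΛN : Λ ≤ N ^ (6 * (a + g) + 1) := by
    calc Λ = 2 ^ ((a + g) * X₀) * (2 ^ l) ^ (6 * (a + g)) := by
          rw [hΛ, hV, ← pow_add, ← pow_mul, ← pow_add]; congr 1; rw [hY]; ring
      _ ≤ N * N ^ (6 * (a + g)) := Nat.mul_le_mul hN (Nat.pow_le_pow_left hl1 _)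
      _ = N ^ (6 * (a + g) + 1) := by rw [pow_succ]; ring
  have herr : Real.exp (-((N : ℝ) ^ (6 * (a + g) + 1))) ≤ ((2 : ℝ) ^ Λ)⁻¹ := by
    rw [Real.exp_neg]
    refine inv_anti₀ (by positivity) ?_
    have h1 : (2 : ℝ) ≤ Real.exp 1 := by
      have := Real.add_one_le_exp (1 : ℝ)
      linarith
    calc (2 : ℝ) ^ Λ ≤ Real.exp 1 ^ Λ := by gcongr
      _ = Real.exp Λ := by rw [← Real.exp_nat_mul, mul_one]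
      _ ≤ Real.exp ((N : ℝ) ^ (6 * (a + g) + 1)) := by
          apply Real.exp_le_exp.2
          exact_mod_cast hΛN
  have hres := six_quant Y V Λ hY2 hV1 (by rw [hΛ]; exact ha Y V hY2 hV1) s y hsY hyY L
    (hL3.trans (by omega)) B D hD1 (hD2.trans hN6) hDI hcj
    (fun p => by rw [hB]; exact (hcon p).trans herr)
  have hVinv : (2 : ℝ) ^ (b * Y * κ) * (V : ℝ)⁻¹ < c := by
    have e1 : (V : ℝ)⁻¹ = ((2 : ℝ) ^ (b * Y * κ))⁻¹ * ((2 : ℝ) ^ (g₀ * Y))⁻¹ := by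
      rw [hV, hg, ← mul_inv, ← pow_add]
      push_cast
      congr 2
      ring
    rw [e1, ← mul_assoc, mul_inv_cancel₀ (by positivity), one_mul]
    refine lt_of_le_of_lt ?_ hg₀
    rw [one_div, inv_pow]
    refine inv_anti₀ (by positivity) ?_
    exact pow_le_pow_right₀ (by norm_num) (Nat.le_mul_of_pos_right _ (by omega))
  rcases hres with ⟨u, v, hv1, hv2, huv⟩ | ⟨z, hz0, hzB, hzs⟩
  · have h1 := hs u v hv1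
    have h2 : (v : ℝ) ^ κ ≤ (2 : ℝ) ^ (b * Y * κ) := by
      rw [pow_mul]
      refine pow_le_pow_left₀ (by positivity) ?_ κ
      exact_mod_cast hv2.trans (hb Y hY2)
    have h3 : (v : ℝ) ^ κ * ‖s - u / v‖ ≤ (2 : ℝ) ^ (b * Y * κ) * (V : ℝ)⁻¹ :=
      mul_le_mul h2 huv (norm_nonneg _) (by positivity)
    linarith
  · have h1 := hy z hz0 (2 ^ (b * Y)) Nat.one_le_two_pow (fun m => (hzB m).trans (by
      exact_mod_cast hb Y hY2))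
    have h2 : (((2 ^ (b * Y) : ℕ)) : ℝ) ^ κ = (2 : ℝ) ^ (b * Y * κ) := by
      push_cast
      rw [← pow_mul]
    rw [h2] at h1
    have h3 : (2 : ℝ) ^ (b * Y * κ) * ‖∑ m, (z m : ℂ) * y m‖ ≤ (2 : ℝ) ^ (b * Y * κ) * (V : ℝ)⁻¹ :=
      mul_le_mul_of_nonneg_left hzs (by positivity)
    linarith

end Pool.Agent.U664.SQ
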