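import Pool.Agent.U664.SQ.Poly
import Pool.Agent.U664.SQ.Mono
import Pool.Agent.U664.SQ.Lin

/-!
# Exponentials of many polynomials at every scale
-/

set_option autoImplicit false

namespace Pool.Agent.U664.SQ

open Complex Finset Polynomial Pool.Agent.R347.SX Pool.Agent.R347.LW Pool.Agent.TH456.TM

theorem rb_inv {d N : ℕ} {α : ℂ} (h0 : α ≠ 0) (h : RB d N α) : RB d N α⁻¹ := by
  obtain ⟨P, hP, hd, hc, ha⟩ := h
  refine ⟨P.reverse, fun h => hP (by simpa using h), P.reverse_natDegree_le.trans hd,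
    fun n => by rw [coeff_reverse]; exact hc _, ?_⟩
  let _ := invertibleOfNonzero h0
  have h1 := (eval₂_reverse_eq_zero_iff (algebraMap ℤ ℂ) α P).2 ha
  rwa [invOf_eq_inv] at h1

/-- approximations of monomials -/
theorem mono_near {r : ℕ} (w : Fin r → ℂ) (E C : ℕ) : ∃ N₁ : ℕ, ∀ N ≥ N₁, ∀ α : Fin r → ℂ,
    (∀ j, ‖exp (w j) - α j‖ ≤ Real.exp (-((N : ℝ) ^ (C + 1)))) → (∀ j, α j ≠ 0) ∧
    ∀ e : Fin r ⊕ Fin r → ℕ, ∑ i, e i ≤ E →
      ‖∏ i, (Sum.elim (fun j => exp (w j)) (fun j => (exp (w j))⁻¹) i) ^ e i -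
        ∏ i, (Sum.elim α (fun j => (α j)⁻¹) i) ^ e i‖ ≤ Real.exp (-((N : ℝ) ^ C)) := by
  classical
  obtain ⟨B, hB⟩ : ∃ B : ℝ, B = 1 + ∑ j, (‖exp (w j)‖ + ‖(exp (w j))⁻¹‖) := ⟨_, rfl⟩
  have hS0 : ∀ j, 0 ≤ ‖exp (w j)‖ + ‖(exp (w j))⁻¹‖ := fun j => by positivity
  have hB1 : 1 ≤ B := by
    rw [hB]
    have := sum_nonneg fun j (_ : j ∈ univ) => hS0 j
    linarith
  have hBj : ∀ j, ‖exp (w j)‖ ≤ B ∧ ‖(exp (w j))⁻¹‖ ≤ B := by
    intro j
    have h1 := single_le_sum (f := fun j => ‖exp (w j)‖ + ‖(exp (w j))⁻¹‖) (fun j _ => hS0 j)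
      (mem_univ j)
    have h2 := norm_nonneg (exp (w j))
    have h3 := norm_nonneg ((exp (w j))⁻¹)
    constructor <;> rw [hB] <;> linarith
  obtain ⟨K, hK⟩ : ∃ K : ℝ, K = E * (2 * B) ^ E * (2 * B ^ 2) + 2 * B := ⟨_, rfl⟩
  have hK1 : 2 * B ≤ K := by rw [hK]; have : 0 ≤ (E : ℝ) * (2 * B) ^ E * (2 * B ^ 2) := by positivity
                             linarith
  refine ⟨⌈K⌉₊ + 2, fun N hN α hα => ?_⟩
  have hNK : K ≤ N := by
    have h1 := Nat.le_ceil K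
    have h2 : ((⌈K⌉₊ : ℕ) : ℝ) ≤ N := by exact_mod_cast (by omega : ⌈K⌉₊ ≤ N)
    linarith
  have hN2 : (2 : ℝ) ≤ N := by exact_mod_cast (by omega : 2 ≤ N)
  obtain ⟨η, hη⟩ : ∃ η, η = Real.exp (-((N : ℝ) ^ (C + 1))) := ⟨_, rfl⟩
  rw [← hη] at hα
  have hη0 : 0 < η := by rw [hη]; exact Real.exp_pos _
  have hNC : 1 ≤ (N : ℝ) ^ C := one_le_pow₀ (by linarith)
  have hexpN : K ≤ Real.exp ((N : ℝ) ^ (C + 1) - (N : ℝ) ^ C) := by
    have h1 : (N : ℝ) - 1 ≤ (N : ℝ) ^ (C + 1) - (N : ℝ) ^ C := by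
      rw [pow_succ]
      nlinarith
    calc K ≤ (N - 1 : ℝ) + 1 := by linarith
      _ ≤ Real.exp ((N : ℝ) - 1) := Real.add_one_le_exp _
      _ ≤ _ := Real.exp_le_exp.2 h1
  have hKη : K * η ≤ Real.exp (-((N : ℝ) ^ C)) := by
    calc K * η ≤ Real.exp ((N : ℝ) ^ (C + 1) - (N : ℝ) ^ C) * η :=
          mul_le_mul_of_nonneg_right hexpN hη0.le
      _ = Real.exp (-((N : ℝ) ^ C)) := by rw [hη, ← Real.exp_add]; congr 1; ring
  have hBη : 2 * B * η ≤ 1 := by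
    have h1 : Real.exp (-((N : ℝ) ^ C)) ≤ 1 := Real.exp_le_one_iff.2 (by linarith)
    have h2 : 2 * B * η ≤ K * η := mul_le_mul_of_nonneg_right hK1 hη0.le
    linarith
  have hx0 : ∀ j, exp (w j) ≠ 0 := fun j => exp_ne_zero _
  have hlow : ∀ j, 1 / (2 * B) ≤ ‖α j‖ := by
    intro j
    have h1 : 1 / B ≤ ‖exp (w j)‖ := by
      rw [div_le_iff₀ (by linarith)]
      have h2 := (hBj j).2
      rw [norm_inv] at h2
      have h3 : 0 < ‖exp (w j)‖ := norm_pos_iff.2 (hx0 j)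
      calc (1 : ℝ) = ‖exp (w j)‖ * ‖exp (w j)‖⁻¹ := (mul_inv_cancel₀ h3.ne').symm
        _ ≤ ‖exp (w j)‖ * B := mul_le_mul_of_nonneg_left h2 h3.le
    have h2 : ‖exp (w j)‖ ≤ ‖α j‖ + η := by
      have e1 : exp (w j) = α j + (exp (w j) - α j) := by ring
      rw [e1]
      exact (norm_add_le _ _).trans (by linarith [hα j])
    have h3 : η ≤ 1 / (2 * B) := by
      rw [le_div_iff₀ (by linarith)]
      linarith
    have h4 : 1 / B = 1 / (2 * B) + 1 / (2 * B) := by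
      field_simp
      norm_num
    linarith
  have hα0 : ∀ j, α j ≠ 0 := by
    intro j h
    have h1 := hlow j
    rw [h, norm_zero] at h1
    have : 0 < 1 / (2 * B) := by positivity
    linarith
  refine ⟨hα0, fun e he => ?_⟩
  have hαinv : ∀ j, ‖(α j)⁻¹‖ ≤ 2 * B := by
    intro j
    rw [norm_inv]
    have h1 := hlow j
    have h2 : 0 < ‖α j‖ := norm_pos_iff.2 (hα0 j)
    rw [inv_le_comm₀ h2 (by linarith), ← one_div]
    exact h1
  have hu : ∀ i, ‖(Sum.elim (fun j => exp (w j)) (fun j => (exp (w j))⁻¹) i : ℂ)‖ ≤ 2 * B := by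
    rintro (j | j)
    · exact (hBj j).1.trans (by linarith)
    · exact (hBj j).2.trans (by linarith)
  have hv : ∀ i, ‖(Sum.elim α (fun j => (α j)⁻¹) i : ℂ)‖ ≤ 2 * B := by
    rintro (j | j)
    · simp only [Sum.elim_inl]
      have e1 : α j = exp (w j) - (exp (w j) - α j) := by ring
      rw [e1]
      refine (norm_sub_le _ _).trans ?_
      have h1 := (hBj j).1
      have h2 := hα j
      have h3 : η ≤ B := by nlinarith
      linarith
    · exact hαinv j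
  have hd : ∀ i, ‖(Sum.elim (fun j => exp (w j)) (fun j => (exp (w j))⁻¹) i : ℂ) -
      Sum.elim α (fun j => (α j)⁻¹) i‖ ≤ 2 * B ^ 2 * η := by
    rintro (j | j)
    · simp only [Sum.elim_inl]
      refine (hα j).trans ?_
      have h1 : 1 ≤ 2 * B ^ 2 := by nlinarith
      nlinarith
    · simp only [Sum.elim_inr]
      have e1 : (exp (w j))⁻¹ - (α j)⁻¹ = -((exp (w j) - α j) * ((exp (w j))⁻¹ * (α j)⁻¹)) := by
        field_simp [hx0 j, hα0 j]
        ring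
      rw [e1, norm_neg, norm_mul, norm_mul]
      calc ‖exp (w j) - α j‖ * (‖(exp (w j))⁻¹‖ * ‖(α j)⁻¹‖) ≤ η * (B * (2 * B)) := by
            refine mul_le_mul (hα j) ?_ (by positivity) hη0.le
            exact mul_le_mul (hBj j).2 (hαinv j) (norm_nonneg _) (by linarith)
        _ = 2 * B ^ 2 * η := by ring
  refine (prod_pow_sub _ _ (2 * B) (2 * B ^ 2 * η) (by linarith) (by positivity) hu hv hd e univ).trans ?_
  refine le_trans ?_ hKη
  have h1 : ((∑ i, e i : ℕ) : ℝ) ≤ E := by exact_mod_cast he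
  have h2 : (2 * B) ^ (∑ i, e i) ≤ (2 * B) ^ E := pow_le_pow_right₀ (by linarith) he
  calc ((∑ i, e i : ℕ) : ℝ) * (2 * B) ^ (∑ i, e i) * (2 * B ^ 2 * η)
      ≤ E * (2 * B) ^ E * (2 * B ^ 2 * η) := by gcongr
    _ ≤ K * η := by
        rw [hK]
        have : 0 ≤ 2 * B * η := by positivity
        nlinarith

theorem prod_zpow {r : ℕ} (w : Fin r → ℂ) (a : Fin r → ℤ) :
    ∏ i, (Sum.elim (fun j => exp (w j)) (fun j => (exp (w j))⁻¹) i) ^
      (Sum.elim (fun j => (a j).toNat) (fun j => (-a j).toNat) i : ℕ) = exp (∑ j, (a j : ℂ) * w j) := by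
  rw [Fintype.prod_sum_type, exp_sum, ← prod_mul_distrib]
  refine prod_congr rfl fun j _ => ?_
  simp only [Sum.elim_inl, Sum.elim_inr]
  rw [exp_int_mul]
  rcases le_total 0 (a j) with h | h
  · obtain ⟨n, hn⟩ := Int.eq_ofNat_of_zero_le h
    rw [hn]
    simp
  · obtain ⟨n, hn⟩ := Int.eq_ofNat_of_zero_le (neg_nonneg.2 h)
    rw [hn, show a j = -(n : ℤ) by omega]
    simp

/-- **Many polynomials.** -/
theorem tuple {t : ℂ} (ht : MeasT t) {ξ : ℂ} (hξ : ξ ≠ 0) (d : ℕ) {r D : ℕ} (hr : D + 5 ≤ 2 * r)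
    (P : Fin r → ℤ[X]) (hd : ∀ j, (P j).natDegree ≤ D) (hP : LinearIndependent ℤ P) :
    ∃ C₀ N₀ : ℕ, 1 ≤ N₀ ∧ ∀ N ≥ N₀, ∀ K ≥ C₀, ∃ j, ¬ Near d K N (exp (ξ * aeval t (P j))) := by
  classical
  obtain ⟨A, B, hrel, hind⟩ := exists_relations hr P hd hP
  obtain ⟨R, hR⟩ : ∃ R : Fin 3 → ℤ[X], R = fun i => ∑ j, C (A i j) * P j := ⟨_, rfl⟩
  obtain ⟨κ₁, c₁, hc₁, h₁⟩ := low_ratio ht 1 X (fun a b h => by
    have h1 : (C a * 1 : ℤ[X]).coeff 1 = (C b * X : ℤ[X]).coeff 1 := by rw [h]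
    rw [mul_one, coeff_C, if_neg one_ne_zero, coeff_C_mul, coeff_X_one, mul_one] at h1
    exact h1.symm) (s := t) (by simp)
  obtain ⟨κ₂, c₂, hc₂, h₂⟩ := low_comb ht hξ R (by rw [hR]; exact hind)
  obtain ⟨M, hM⟩ : ∃ M : Fin 2 × Fin 3 → Fin r → ℤ,
      M = fun p j => if p.1 = 0 then A p.2 j else B p.2 j := ⟨_, rfl⟩
  obtain ⟨e, he⟩ : ∃ e : Fin 2 × Fin 3 → Fin r ⊕ Fin r → ℕ,
      e = fun p => Sum.elim (fun j => (M p j).toNat) (fun j => (-M p j).toNat) := ⟨_, rfl⟩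
  obtain ⟨C₀, N₀, hN₀, h⟩ := six_mono t (fun i => ξ * aeval t (R i)) d (max κ₁ κ₂) (min c₁ c₂)
    (lt_min hc₁ hc₂) (fun u v hv => by
      refine (min_le_left _ _).trans ((h₁ u v hv).trans ?_)
      refine mul_le_mul_of_nonneg_right ?_ (norm_nonneg _)
      exact pow_le_pow_right₀ (by exact_mod_cast hv) (le_max_left _ _))
    (fun b hb H hH hbH => by
      refine (min_le_right _ _).trans ((h₂ b hb H hH hbH).trans ?_)
      refine mul_le_mul_of_nonneg_right ?_ (norm_nonneg _)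
      exact pow_le_pow_right₀ (by exact_mod_cast hH) (le_max_right _ _)) e
  obtain ⟨w, hw⟩ : ∃ w : Fin r → ℂ, w = fun j => ξ * aeval t (P j) := ⟨_, rfl⟩
  obtain ⟨E, hE⟩ : ∃ E, E = ∑ p, ∑ i, e p i := ⟨_, rfl⟩
  obtain ⟨N₁, hN₁⟩ := mono_near w E C₀
  refine ⟨C₀ + 1, max N₀ N₁, hN₀.trans (le_max_left _ _), fun N hN K hK => ?_⟩
  have hN0 : N₀ ≤ N := (le_max_left _ _).trans hN
  by_contra hcon
  push Not at hcon
  choose α hα hαe using fun j => ((hcon j).anti hK (hN₀.trans hN0) : Near d (C₀ + 1) N _)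
  obtain ⟨hα0, hne⟩ := hN₁ N ((le_max_right _ _).trans hN) α (fun j => by rw [hw]; exact hαe j)
  obtain ⟨p, hp⟩ := h N hN0 (Sum.elim α fun j => (α j)⁻¹) (by
    rintro (j | j)
    · exact hα j
    · exact rb_inv (hα0 j) (hα j))
  have hs : cf t p.1 * (ξ * aeval t (R p.2)) = ∑ j, (M p j : ℂ) * w j := by
    rw [hw, hM]
    unfold cf
    by_cases h0 : p.1 = 0
    · simp only [h0, if_true, one_mul, hR, map_sum, map_mul, aeval_C, algebraMap_int_eq, eq_intCast,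
        map_intCast, mul_sum]
      exact sum_congr rfl fun j _ => by ring
    · simp only [h0, if_false]
      have h3 := congrArg (aeval t) (hrel p.2)
      rw [map_mul, aeval_X] at h3
      have h4 : aeval t (R p.2) = aeval t (∑ j, C (A p.2 j) * P j) := by rw [hR]
      rw [show t * (ξ * aeval t (R p.2)) = ξ * (t * aeval t (R p.2)) by ring, h4, h3]
      simp only [map_sum, map_mul, aeval_C, algebraMap_int_eq, eq_intCast, map_intCast, mul_sum]
      exact sum_congr rfl fun j _ => by ring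
  have hep : ∑ i, e p i ≤ E := by
    rw [hE]
    exact single_le_sum (f := fun p => ∑ i, e p i) (fun _ _ => Nat.zero_le _) (mem_univ p)
  have h5 := hne (e p) hep
  have h6 : ∏ i, (Sum.elim (fun j => exp (w j)) (fun j => (exp (w j))⁻¹) i) ^ e p i =
      exp (cf t p.1 * (ξ * aeval t (R p.2))) := by
    rw [hs, ← prod_zpow w (M p), he]
  rw [h6] at h5
  exact absurd h5 (not_le.2 hp)

end Pool.Agent.U664.SQ
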